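import Pool.Agent.W33.Coll.Key
import Pool.Agent.H828R3.Exc.Law

/-! A power-saving bound for the set of the `n` with large total stopping time implies a logarithmic
bound for all `n`. -/

set_option autoImplicit false

namespace Pool.Agent.W33.Coll

open Finset Filter Pool.Agent.H395R2.G3

/-- the total stopping time of `n` is at most `c log n` -/
def Fast (c : ℝ) (n : ℕ) : Prop := ∃ k : ℕ, (k : ℝ) ≤ c * Real.log n ∧ fT^[k] n = 1

/-- the starting points `n ≤ x` in `R` of runs of `H` integers with large total stopping times -/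
def Bad (R : Set ℕ) (c : ℝ) (H : ℕ) (x : ℝ) : Set ℕ :=
  {n : ℕ | 1 ≤ n ∧ (n : ℝ) ≤ x ∧ n ∈ R ∧ ∀ h < H, ¬ Fast c (n + h)}

theorem Bad_finite (R : Set ℕ) (c : ℝ) (H : ℕ) (x : ℝ) : (Bad R c H x).Finite := by
  apply (Set.finite_Icc 1 ⌊x⌋₊).subset
  rintro n ⟨h1, h2, _⟩
  exact ⟨h1, Nat.le_floor h2⟩

/-- `R` is invariant -/
def Inv (R : Set ℕ) : Prop := ∀ n, 1 ≤ n → (n ∈ R ↔ fT n ∈ R)

theorem fT_pos {n : ℕ} (hn : 1 ≤ n) : 1 ≤ fT n := by
  unfold fT
  split_ifs <;> omega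

theorem fT_iter_pos {n : ℕ} (hn : 1 ≤ n) (k : ℕ) : 1 ≤ fT^[k] n := by
  induction k with
  | zero => exact hn
  | succ k ih =>
    rw [Function.iterate_succ_apply']
    exact fT_pos ih

theorem Inv.iter {R : Set ℕ} (hR : Inv R) {n : ℕ} (hn : 1 ≤ n) (k : ℕ) : n ∈ R ↔ fT^[k] n ∈ R := by
  induction k with
  | zero => exact Iff.rfl
  | succ k ih =>
    rw [Function.iterate_succ_apply', ← hR _ (fT_iter_pos hn k)]
    exact ih

/-- a run which reaches `m ≥ 3` slowly, `m` not fast -/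
theorem not_fast_of {c c' : ℝ} {n m s : ℕ} (hm : 3 ≤ m) (hs : fT^[s] n = m)
    (hle : c * Real.log n - s ≤ c' * Real.log m) (hnot : ¬ Fast c' m) : ¬ Fast c n := by
  rintro ⟨k, hk, hk1⟩
  rcases le_or_gt s k with h | h
  · obtain ⟨d, rfl⟩ := Nat.exists_eq_add_of_le h
    apply hnot
    refine ⟨d, ?_, ?_⟩
    · push_cast at hk
      linarith
    · rwa [add_comm, Function.iterate_add_apply, hs] at hk1
  · obtain ⟨d, rfl⟩ := Nat.exists_eq_add_of_le h.le
    rw [add_comm, Function.iterate_add_apply, hk1] at hs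
    rcases iter_one d with h1 | h1 <;> omega

theorem exists_eta {δ l c ν A : ℝ} (hl : 0 < l) (h1 : 1 - δ < ν * (δ * l))
    (h2 : ν * (c * l - 2) < A) :
    ∃ η : ℝ, 0 < η ∧ η < 1 ∧ η < l ∧ 1 - δ < ν * (δ * l - (2 - δ) * η) ∧
      ν * (c * l - 2 + (c + 1) * η) < A := by
  have t1 : Tendsto (fun η : ℝ => ν * (δ * l - (2 - δ) * η)) (nhdsWithin 0 (Set.Ioi 0))
      (nhds (ν * (δ * l - (2 - δ) * 0))) := by
    apply tendsto_nhdsWithin_of_tendsto_nhds
    exact (Continuous.tendsto (by fun_prop) 0)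
  have t2 : Tendsto (fun η : ℝ => ν * (c * l - 2 + (c + 1) * η)) (nhdsWithin 0 (Set.Ioi 0))
      (nhds (ν * (c * l - 2 + (c + 1) * 0))) := by
    apply tendsto_nhdsWithin_of_tendsto_nhds
    exact (Continuous.tendsto (by fun_prop) 0)
  have e1 := t1.eventually (lt_mem_nhds (show 1 - δ < ν * (δ * l - (2 - δ) * 0) by simpa using h1))
  have e2 := t2.eventually (gt_mem_nhds (show ν * (c * l - 2 + (c + 1) * 0) < A by simpa using h2))
  have e3 : ∀ᶠ η : ℝ in nhdsWithin 0 (Set.Ioi 0), η < min 1 l :=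
    tendsto_nhdsWithin_of_tendsto_nhds (tendsto_id) |>.eventually
      (gt_mem_nhds (show (0 : ℝ) < min 1 l from lt_min one_pos hl))
  obtain ⟨η, h⟩ := (e1.and (e2.and (e3.and self_mem_nhdsWithin))).exists
  exact ⟨η, h.2.2.2, lt_of_lt_of_le h.2.2.1 (min_le_left _ _),
    lt_of_lt_of_le h.2.2.1 (min_le_right _ _), h.1, h.2.1⟩

/-- the core: integers prime to `3` -/
theorem core {R : Set ℕ} (hR : Inv R) {c δ ε : ℝ} {H : ℕ} (hc : 2 / Real.log (4 / 3) < c)
    (hδ0 : 0 < δ) (hδ1 : δ ≤ 1) (hε : 0 < ε)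
    (hyp : ∃ X : ℝ, ∀ x : ℝ, X ≤ x → ((Bad R c H x).ncard : ℝ) ≤ x ^ (1 - δ)) :
    ∃ M₀ : ℕ, ∀ m : ℕ, M₀ ≤ m → ¬ 3 ∣ m → m ∈ R →
      Fast (2 / Real.log (4 / 3) + (c - 2 / Real.log (4 / 3)) / δ + ε) m := by
  obtain ⟨X, hX⟩ := hyp
  set l := Real.log (4 / 3) with hl
  have hl0 : 0 < l := Real.log_pos (by norm_num)
  set μ := 2 / l with hμ
  have hμ0 : 0 < μ := by positivity
  have hμl : μ * l = 2 := by rw [hμ]; field_simp
  have hc0 : 0 < c := lt_trans hμ0 hc
  have hcμ : 0 < c - μ := by linarith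
  set c' := μ + (c - μ) / δ + ε with hc'
  set ν := (1 - δ) / (δ * l) + ε / (4 * l * (c - μ)) with hν
  have hν0 : 0 < ν := by
    have h1 : 0 ≤ (1 - δ) / (δ * l) := div_nonneg (by linarith) (by positivity)
    have h2 : 0 < ε / (4 * l * (c - μ)) := by positivity
    linarith
  have hA1 : 1 - δ < ν * (δ * l) := by
    have e : ν * (δ * l) = (1 - δ) + ε * δ / (4 * (c - μ)) := by
      rw [hν]
      field_simp
    rw [e]
    have : 0 < ε * δ / (4 * (c - μ)) := by positivity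
    linarith
  have hA2 : ν * (c * l - 2) < c' - c := by
    have e : ν * (c * l - 2) = (c - μ) * (1 - δ) / δ + ε / 4 := by
      have e0 : c * l - 2 = l * (c - μ) := by rw [← hμl]; ring
      rw [e0, hν]
      field_simp
    have e2 : c' - c = (c - μ) * (1 - δ) / δ + ε := by
      rw [hc']
      field_simp
      ring
    rw [e, e2]
    linarith
  obtain ⟨η, hη0, hη1, hηl, hB1, hB2⟩ := exists_eta hl0 hA1 hA2
  obtain ⟨K, N₀, hK1, hkey⟩ := key H hη0
  have hK0 : 0 < K := by linarith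
  -- the inequalities for large `log m`
  set a1 := δ * l - (2 - δ) * η with ha1
  have ha10 : 0 < a1 := by
    have h1 : 0 < ν * a1 := by linarith
    exact (pos_iff_pos_of_mul_pos h1).1 hν0
  set a2 := c * l - 2 + (c + 1) * η with ha2
  have ha20 : 0 ≤ a2 := by
    have e0 : c * l - 2 = l * (c - μ) := by rw [← hμl]; ring
    rw [ha2, e0]
    positivity
  have hlogK : 0 ≤ Real.log K := Real.log_nonneg hK1
  have hev : ∀ᶠ m : ℕ in atTop, (a1 + 2 * Real.log K < (ν * a1 - (1 - δ)) * Real.log m) ∧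
      (c * Real.log K ≤ (c' - c - ν * a2) * Real.log m) ∧ ((N₀ : ℝ) + 1 ≤ ν * Real.log m) ∧
      (X ≤ m) ∧ 3 ≤ m := by
    have tl : Tendsto (fun m : ℕ => Real.log m) atTop atTop :=
      Real.tendsto_log_atTop.comp tendsto_natCast_atTop_atTop
    have g1 := (tl.const_mul_atTop (show 0 < ν * a1 - (1 - δ) by linarith)).eventually_gt_atTop
      (a1 + 2 * Real.log K)
    have g2 := (tl.const_mul_atTop (show 0 < c' - c - ν * a2 by linarith)).eventually_ge_atTop
      (c * Real.log K)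
    have g3 := (tl.const_mul_atTop hν0).eventually_ge_atTop ((N₀ : ℝ) + 1)
    have g4 := (tendsto_natCast_atTop_atTop (R := ℝ)).eventually_ge_atTop X
    filter_upwards [g1, g2, g3, g4, eventually_ge_atTop 3] with m h1 h2 h3 h4 h5
    exact ⟨h1, h2, h3, h4, h5⟩
  obtain ⟨M₀, hM₀⟩ := eventually_atTop.1 hev
  refine ⟨max M₀ 1, fun m hm hm3 hmR => ?_⟩
  obtain ⟨hm1, hm2, hm4, hm5, hm6⟩ := hM₀ m (le_trans (le_max_left _ _) hm)
  by_contra hnot
  have hmpos : (0 : ℝ) < m := by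
    have : 0 < m := by omega
    exact_mod_cast this
  have hlm : 0 ≤ Real.log m := Real.log_natCast_nonneg m
  set N := ⌊ν * Real.log m⌋₊ with hN
  have hN1 : (N : ℝ) ≤ ν * Real.log m := Nat.floor_le (by positivity)
  have hN2 : ν * Real.log m < N + 1 := Nat.lt_floor_add_one _
  have hNN : N₀ ≤ N := by
    have : (N₀ : ℝ) < N + 1 := by linarith
    have : N₀ < N + 1 := by exact_mod_cast this
    omega
  obtain ⟨G, hG1, hG2⟩ := hkey N hNN m (by omega) hm3
  set x := K * m * Real.exp ((l + η) * N) with hx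
  have hexp1 : 1 ≤ Real.exp ((l + η) * N) := Real.one_le_exp (by positivity)
  have hxm : (m : ℝ) ≤ x := by
    rw [hx]
    have h1 : (1 : ℝ) * m ≤ K * m := mul_le_mul_of_nonneg_right hK1 hmpos.le
    have h2 : K * m * 1 ≤ K * m * Real.exp ((l + η) * N) :=
      mul_le_mul_of_nonneg_left hexp1 (by positivity)
    linarith
  have hx0 : 0 < x := by positivity
  have hlogx : Real.log x = Real.log K + Real.log m + (l + η) * N := by
    rw [hx, Real.log_mul (by positivity) (by positivity), Real.log_mul (by positivity)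
      (by positivity), Real.log_exp]
  have hsub : (G : Set ℕ) ⊆ Bad R c H x := by
    intro n hn
    obtain ⟨h1, h2, ⟨s0, hs0⟩, h3⟩ := hG2 n hn
    refine ⟨h1, h2, ?_, fun h hh => ?_⟩
    · rw [hR.iter h1 s0, hs0]
      exact hmR
    obtain ⟨h4, s, hs1, hs2⟩ := h3 h hh
    refine not_fast_of hm6 hs2 ?_ hnot
    have hnpos : (0 : ℝ) < ((n + h : ℕ) : ℝ) := by
      have : 0 < n + h := by omega
      exact_mod_cast this
    have h5 : Real.log ((n + h : ℕ) : ℝ) ≤ Real.log x := Real.log_le_log hnpos h4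
    rw [hlogx] at h5
    have h6 : c * Real.log ((n + h : ℕ) : ℝ) ≤ c * (Real.log K + Real.log m + (l + η) * N) :=
      mul_le_mul_of_nonneg_left h5 hc0.le
    have h7 : a2 * N ≤ a2 * (ν * Real.log m) := mul_le_mul_of_nonneg_left hN1 ha20
    have h8 : c * (Real.log K + Real.log m + (l + η) * N) - (2 - η) * N =
        c * Real.log K + c * Real.log m + a2 * N := by
      rw [ha2]
      ring
    have h9 : c * Real.log K + c * Real.log m + a2 * (ν * Real.log m) ≤ c' * Real.log m := by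
      have e : (c' - c - ν * a2) * Real.log m =
          c' * Real.log m - c * Real.log m - a2 * (ν * Real.log m) := by ring
      rw [e] at hm2
      linarith
    linarith
  have hcard : (G.card : ℝ) ≤ x ^ (1 - δ) := by
    have h1 := Set.ncard_le_ncard hsub (Bad_finite R c H x)
    rw [Set.ncard_coe_finset] at h1
    exact le_trans (by exact_mod_cast h1) (hX x (by linarith))
  have hcon : x ^ (1 - δ) < Real.exp ((l - η) * N) / K := by
    rw [Real.rpow_def_of_pos hx0, lt_div_iff₀ hK0]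
    have h1 : K = Real.exp (Real.log K) := (Real.exp_log hK0).symm
    calc Real.exp (Real.log x * (1 - δ)) * K
        = Real.exp (Real.log x * (1 - δ) + Real.log K) := by rw [Real.exp_add, ← h1]
      _ < Real.exp ((l - η) * N) := by
          apply Real.exp_lt_exp.2
          rw [hlogx]
          have h2 : a1 * (ν * Real.log m - 1) ≤ a1 * N :=
            mul_le_mul_of_nonneg_left (by linarith) ha10.le
          have h3 : (l - η) * N - (1 - δ) * ((l + η) * N) = a1 * N := by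
            rw [ha1]
            ring
          have h4 : (1 - δ) * Real.log K ≤ 1 * Real.log K :=
            mul_le_mul_of_nonneg_right (by linarith) hlogK
          have h5 : (Real.log K + Real.log m + (l + η) * N) * (1 - δ) =
              (1 - δ) * Real.log K + (1 - δ) * Real.log m + (1 - δ) * ((l + η) * N) := by ring
          have h6 : a1 * (ν * Real.log m - 1) = ν * a1 * Real.log m - a1 := by ring
          have h7 : (ν * a1 - (1 - δ)) * Real.log m =
              ν * a1 * Real.log m - (1 - δ) * Real.log m := by ring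
          rw [h7] at hm1
          rw [h6] at h2
          rw [h5]
          linarith
  linarith

theorem mu_gt_four : 4 < 2 / Real.log (4 / 3) := by
  have hl0 : 0 < Real.log (4 / 3) := Real.log_pos (by norm_num)
  have h1 : Real.log (4 / 3) < 4 / 3 - 1 :=
    Real.log_lt_sub_one_of_pos (by norm_num) (by norm_num)
  rw [lt_div_iff₀ hl0]
  linarith

theorem fast_mono {c c' : ℝ} {n : ℕ} (h : c ≤ c') (hn : Fast c n) : Fast c' n := by
  obtain ⟨k, h1, h2⟩ := hn
  exact ⟨k, h1.trans (mul_le_mul_of_nonneg_right h (Real.log_natCast_nonneg n)), h2⟩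

/-- forward to an integer prime to `3` -/
theorem forward {n : ℕ} (hn : 1 ≤ n) : ∃ a u : ℕ, n = 2 ^ a * u ∧ 1 ≤ u ∧
    fT^[a + 1] n = (3 * u + 1) / 2 ∧ ¬ 3 ∣ (3 * u + 1) / 2 ∧ 1 ≤ (3 * u + 1) / 2 ∧
    (3 * u + 1) / 2 ≤ 2 * u := by
  obtain ⟨a, u, hu, h2⟩ := Nat.exists_eq_two_pow_mul_odd (show n ≠ 0 by omega)
  have hu' := Nat.odd_iff.1 hu
  refine ⟨a, u, h2, by omega, ?_, by omega, by omega, by omega⟩
  rw [add_comm, Function.iterate_add_apply, h2, fT_iter_pow, Function.iterate_one]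
  unfold fT
  rw [if_neg (by omega)]

theorem reach_of_mul {n j k : ℕ} (h : fT^[k] (2 ^ j * n) = 1) : ∃ i, fT^[i] n = 1 := by
  rcases le_total j k with h1 | h1
  · obtain ⟨d, rfl⟩ := Nat.exists_eq_add_of_le h1
    rw [add_comm, Function.iterate_add_apply, fT_iter_pow] at h
    exact ⟨d, h⟩
  · obtain ⟨d, rfl⟩ := Nat.exists_eq_add_of_le h1
    have h2 : fT^[d] 1 = n := by
      have h3 : fT^[k + d] (2 ^ (k + d) * n) = n := fT_iter_pow _ _
      rwa [add_comm, Function.iterate_add_apply, add_comm, h] at h3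
    rcases iter_one d with h3 | h3
    · exact ⟨0, by rw [← h2, h3]; rfl⟩
    · exact ⟨1, by rw [← h2, h3]; rfl⟩

/-- all members of `R` reach `1` when the large members prime to `3` do -/
theorem reach_all {R : Set ℕ} (hR : Inv R) {M₀ : ℕ}
    (h : ∀ m : ℕ, M₀ ≤ m → ¬ 3 ∣ m → m ∈ R → ∃ k, fT^[k] m = 1) {n : ℕ} (hn : 1 ≤ n)
    (hnR : n ∈ R) : ∃ k, fT^[k] n = 1 := by
  obtain ⟨a, u, _, _, h3, h4, h5, _⟩ := forward hn
  set m := (3 * u + 1) / 2 with hm
  have hmR : m ∈ R := by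
    rw [← h3]
    exact (hR.iter hn _).1 hnR
  have hbig : M₀ ≤ 2 ^ M₀ * m := by
    calc M₀ ≤ 2 ^ M₀ := Nat.lt_two_pow_self.le
      _ ≤ 2 ^ M₀ * m := Nat.le_mul_of_pos_right _ h5
  have hR' : 2 ^ M₀ * m ∈ R := by
    rw [hR.iter (Nat.mul_pos (by positivity) h5) M₀, fT_iter_pow]
    exact hmR
  have h3' : ¬ 3 ∣ 2 ^ M₀ * m := by
    intro hd
    rcases Nat.prime_three.dvd_mul.1 hd with h | h
    · have := Nat.prime_three.dvd_of_dvd_pow h
      omega
    · exact h4 h
  obtain ⟨k, hk⟩ := h _ hbig h3' hR'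
  obtain ⟨i, hi⟩ := reach_of_mul hk
  exact ⟨i + (a + 1), by rw [Function.iterate_add_apply, h3, hi]⟩

/-- A uniform bound for finitely many times. -/
theorem exists_bound {R : Set ℕ} (M : ℕ) (h : ∀ n, 1 ≤ n → n ∈ R → ∃ k, fT^[k] n = 1) :
    ∃ S : ℕ, ∀ n, 1 ≤ n → n < M → n ∈ R → ∃ k ≤ S, fT^[k] n = 1 := by
  classical
  have hch : ∀ n : ℕ, ∃ k : ℕ, 1 ≤ n → n ∈ R → fT^[k] n = 1 := by
    intro n
    by_cases h1 : 1 ≤ n ∧ n ∈ R
    · obtain ⟨k, hk⟩ := h n h1.1 h1.2
      exact ⟨k, fun _ _ => hk⟩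
    · exact ⟨0, fun h2 h3 => absurd ⟨h2, h3⟩ h1⟩
  choose f hf using hch
  exact ⟨(range M).sup f, fun n h1 h2 h3 => ⟨f n, le_sup (f := f) (mem_range.2 h2), hf n h1 h3⟩⟩

/-- THE TRANSFER PRINCIPLE -/
theorem transfer {R : Set ℕ} (hR : Inv R) {c δ ε : ℝ} {H : ℕ} (hc : 2 / Real.log (4 / 3) < c)
    (hδ0 : 0 < δ) (hδ1 : δ ≤ 1) (hε : 0 < ε)
    (hyp : ∃ X : ℝ, ∀ x : ℝ, X ≤ x → ((Bad R c H x).ncard : ℝ) ≤ x ^ (1 - δ)) :
    ∃ N₁ : ℕ, ∀ n : ℕ, N₁ ≤ n → n ∈ R →
      Fast (2 / Real.log (4 / 3) + (c - 2 / Real.log (4 / 3)) / δ + ε) n := by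
  obtain ⟨M₀, hM₀⟩ := core hR hc hδ0 hδ1 (half_pos hε) hyp
  have hμ4 := mu_gt_four
  set μ := 2 / Real.log (4 / 3) with hμ
  have hq : 0 ≤ (c - μ) / δ := div_nonneg (by linarith) hδ0.le
  set c2 := μ + (c - μ) / δ + ε / 2 with hc2
  have hc2' : μ + (c - μ) / δ + ε = c2 + ε / 2 := by rw [hc2]; ring
  rw [hc2']
  have hc24 : 4 < c2 := by rw [hc2]; linarith
  have hreach : ∀ n, 1 ≤ n → n ∈ R → ∃ k, fT^[k] n = 1 := fun n hn hnR =>
    reach_all hR (fun m h1 h2 h3 => by
      obtain ⟨k, _, hk⟩ := hM₀ m h1 h2 h3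
      exact ⟨k, hk⟩) hn hnR
  obtain ⟨S, hS⟩ := exists_bound M₀ hreach
  have tl : Tendsto (fun m : ℕ => Real.log m) atTop atTop :=
    Real.tendsto_log_atTop.comp tendsto_natCast_atTop_atTop
  have g1 := (tl.const_mul_atTop (half_pos hε)).eventually_ge_atTop (c2 + 1)
  have g2 := tl.eventually_ge_atTop ((S : ℝ) + 1)
  obtain ⟨N₁, hN₁⟩ := eventually_atTop.1 (g1.and g2)
  refine ⟨max N₁ (max M₀ 1), fun n hn hnR => ?_⟩
  obtain ⟨hn1, hn2⟩ := hN₁ n (le_trans (le_max_left _ _) hn)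
  have hn3 : M₀ ≤ n := le_trans (le_trans (le_max_left _ _) (le_max_right _ _)) hn
  have hn4 : 1 ≤ n := le_trans (le_trans (le_max_right _ _) (le_max_right _ _)) hn
  have hl2a := Real.log_two_gt_d9
  have hl2b := Real.log_two_lt_d9
  by_cases h3 : 3 ∣ n
  · obtain ⟨a, u, hau, hu1, hf1, hf2, hf3, hf4⟩ := forward hn4
    set m := (3 * u + 1) / 2 with hm
    have hmR : m ∈ R := by
      rw [← hf1]
      exact (hR.iter hn4 _).1 hnR
    have hlogn : Real.log n = a * Real.log 2 + Real.log u := by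
      rw [hau]
      push_cast
      have : (u : ℝ) ≠ 0 := by
        have : 0 < u := hu1
        positivity
      rw [Real.log_mul (by positivity) this, Real.log_pow]
    have hlogu : 0 ≤ Real.log u := Real.log_natCast_nonneg u
    have ha0 : (0 : ℝ) ≤ a := Nat.cast_nonneg _
    rcases le_or_gt M₀ m with h5 | h5
    · obtain ⟨k, hk1, hk2⟩ := hM₀ m h5 hf2 hmR
      refine ⟨k + (a + 1), ?_, by rw [Function.iterate_add_apply, hf1, hk2]⟩
      have h6 : Real.log m ≤ Real.log 2 + Real.log u := by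
        have hu0 : (0 : ℝ) < u := by exact_mod_cast hu1
        rw [← Real.log_mul (by norm_num) hu0.ne']
        apply Real.log_le_log
        · exact_mod_cast hf3
        · exact_mod_cast hf4
      have h7 : c2 * Real.log m ≤ c2 * (Real.log 2 + Real.log u) :=
        mul_le_mul_of_nonneg_left h6 (by linarith)
      have h8 : (a : ℝ) * 1 ≤ a * (c2 * Real.log 2) := by
        apply mul_le_mul_of_nonneg_left _ ha0
        nlinarith
      have h9 : c2 * Real.log 2 ≤ c2 * 1 := mul_le_mul_of_nonneg_left (by linarith) (by linarith)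
      push_cast
      rw [hlogn] at hn1 ⊢
      nlinarith
    · obtain ⟨k, hk1, hk2⟩ := hS m hf3 h5 hmR
      refine ⟨k + (a + 1), ?_, by rw [Function.iterate_add_apply, hf1, hk2]⟩
      have h6 : (a : ℝ) ≤ 2 * Real.log n := by
        rw [hlogn]
        nlinarith
      have h7 : (k : ℝ) ≤ S := by exact_mod_cast hk1
      have hln : 0 ≤ Real.log n := Real.log_natCast_nonneg n
      push_cast
      have h8 : 4 * Real.log n ≤ (c2 + ε / 2) * Real.log n :=
        mul_le_mul_of_nonneg_right (by linarith) hln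
      linarith
  · exact fast_mono (by linarith) (hM₀ n hn3 h3 hnR)

/-- large members fast, all members reach `1`: all members `≥ 2` fast for some constant -/
theorem all_fast {R : Set ℕ} (hR : Inv R) {c : ℝ} {N₁ : ℕ} (h : ∀ n, N₁ ≤ n → n ∈ R → Fast c n) :
    ∃ C : ℝ, ∀ n : ℕ, 2 ≤ n → n ∈ R → Fast C n := by
  have hreach : ∀ n, 1 ≤ n → n ∈ R → ∃ k, fT^[k] n = 1 := fun n hn hnR =>
    reach_all hR (M₀ := N₁) (fun m h1 _ h3 => by
      obtain ⟨k, _, hk⟩ := h m h1 h3
      exact ⟨k, hk⟩) hn hnR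
  obtain ⟨S, hS⟩ := exists_bound N₁ hreach
  have hl2a := Real.log_two_gt_d9
  refine ⟨max c (S / Real.log 2), fun n hn hnR => ?_⟩
  rcases le_or_gt N₁ n with h1 | h1
  · exact fast_mono (le_max_left _ _) (h n h1 hnR)
  · obtain ⟨k, hk1, hk2⟩ := hS n (by omega) h1 hnR
    refine fast_mono (le_max_right _ _) ⟨k, ?_, hk2⟩
    have h2 : Real.log 2 ≤ Real.log n := Real.log_le_log (by norm_num) (by exact_mod_cast hn)
    have h3 : (k : ℝ) ≤ S := by exact_mod_cast hk1
    have h4 : (S : ℝ) / Real.log 2 * Real.log 2 ≤ S / Real.log 2 * Real.log n :=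
      mul_le_mul_of_nonneg_left h2 (by positivity)
    rw [div_mul_cancel₀ _ (by linarith)] at h4
    linarith

/-- a logarithmic bound on `R` implies the bound with the expected constant, up to a power-saving
set of exceptions -/
theorem saving {R : Set ℕ} (hR : Inv R) {C c : ℝ} (hC : ∀ n : ℕ, 2 ≤ n → n ∈ R → Fast C n)
    (hc : 2 / Real.log (4 / 3) < c) : ∃ δ : ℝ, 0 < δ ∧ ∃ X : ℝ, ∀ x : ℝ, X ≤ x →
      (({n : ℕ | 1 ≤ n ∧ (n : ℝ) ≤ x ∧ n ∈ R ∧ ¬ Fast c n}).ncard : ℝ) ≤ x ^ (1 - δ) := by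
  have hμ4 := mu_gt_four
  have hl0 : 0 < Real.log (4 / 3) := Real.log_pos (by norm_num)
  set l := Real.log (4 / 3) with hl
  set μ := 2 / l with hμ
  have hμl : μ * l = 2 := by rw [hμ]; field_simp
  set D := max C 1 with hD
  have hD1 : 1 ≤ D := le_max_right _ _
  -- parameters
  set ε := (c - μ) / (4 * μ) with hε
  have hε0 : 0 < ε := div_pos (by linarith) (by linarith)
  have hεμ : ε * μ = (c - μ) / 4 := by
    rw [hε]
    have : μ ≠ 0 := by linarith
    field_simp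
  set η := min ((c - μ) / (8 * D)) 1 with hη
  have hη0 : 0 < η := lt_min (div_pos (by linarith) (by linarith)) one_pos
  have hη1 : η ≤ 1 := min_le_right _ _
  have hηD : D * η ≤ (c - μ) / 8 := by
    have h1 : η ≤ (c - μ) / (8 * D) := min_le_left _ _
    calc D * η ≤ D * ((c - μ) / (8 * D)) := mul_le_mul_of_nonneg_left h1 (by linarith)
      _ = (c - μ) / 8 := by
          have : D ≠ 0 := by linarith
          field_simp
  obtain ⟨c1, C1, hc1, hC1, hlaw⟩ := Pool.Agent.H828R3.Exc.law hε0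
  set δ := min (c1 * η) 1 / 4 with hδ
  have hδ0 : 0 < δ := by
    rw [hδ]
    have : 0 < min (c1 * η) 1 := lt_min (by positivity) one_pos
    linarith
  have hδ1 : 4 * δ ≤ c1 * η := by
    rw [hδ]
    have := min_le_left (c1 * η) 1
    linarith
  have hδ2 : 4 * δ ≤ 1 := by
    rw [hδ]
    have := min_le_right (c1 * η) 1
    linarith
  -- the comparison for large `x`
  have hlogs : ∀ᶠ x : ℝ in atTop, x ^ (1 / 2 : ℝ) + 1 + 2 * (C1 * (Real.log x) ^ 4 * x ^ (1 - 4 * δ)) ≤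
      x ^ (1 - δ) := by
    have h1 : Tendsto (fun x : ℝ => (Real.log x) ^ 4 / x ^ δ) atTop (nhds 0) := by
      have := isLittleO_log_rpow_atTop (show 0 < δ / 4 by positivity)
      have h2 := this.tendsto_div_nhds_zero
      have h3 := h2.pow 4
      rw [zero_pow (by norm_num)] at h3
      refine h3.congr' ?_
      filter_upwards [eventually_gt_atTop 0] with x hx
      rw [div_pow, ← Real.rpow_natCast (x ^ (δ / 4)), ← Real.rpow_mul hx.le]
      norm_num
    have h2 := h1.eventually (gt_mem_nhds (show (0 : ℝ) < 1 / (8 * C1) by positivity))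
    have h3 := (tendsto_rpow_atTop (show 0 < δ by exact hδ0)).eventually_ge_atTop 4
    filter_upwards [h2, h3, eventually_ge_atTop 1] with x hx1 hx2 hx3
    have hx0 : 0 < x := by linarith
    have e1 : x ^ (1 - δ) = x ^ (1 - 2 * δ) * x ^ δ := by
      rw [← Real.rpow_add hx0]
      congr 1
      ring
    have hp : 0 < x ^ (1 - 2 * δ) := Real.rpow_pos_of_pos hx0 _
    have f1 : x ^ (1 / 2 : ℝ) ≤ x ^ (1 - 2 * δ) :=
      Real.rpow_le_rpow_of_exponent_le hx3 (by linarith)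
    have f2 : (1 : ℝ) ≤ x ^ (1 - 2 * δ) := Real.one_le_rpow hx3 (by linarith)
    have f3 : (Real.log x) ^ 4 ≤ 1 / (8 * C1) * x ^ δ := by
      have hpos : 0 < x ^ δ := Real.rpow_pos_of_pos hx0 _
      have := hx1.le
      rwa [div_le_iff₀ hpos] at this
    have f4 : C1 * (Real.log x) ^ 4 * x ^ (1 - 4 * δ) ≤ x ^ (1 - 2 * δ) / 8 * 1 := by
      have hq : 0 < x ^ (1 - 4 * δ) := Real.rpow_pos_of_pos hx0 _
      have e2 : x ^ δ * x ^ (1 - 4 * δ) ≤ x ^ (1 - 2 * δ) := by
        rw [← Real.rpow_add hx0]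
        exact Real.rpow_le_rpow_of_exponent_le hx3 (by linarith)
      calc C1 * (Real.log x) ^ 4 * x ^ (1 - 4 * δ)
          ≤ C1 * (1 / (8 * C1) * x ^ δ) * x ^ (1 - 4 * δ) := by gcongr
        _ = (x ^ δ * x ^ (1 - 4 * δ)) / 8 := by
            field_simp
        _ ≤ x ^ (1 - 2 * δ) / 8 := by linarith
        _ = x ^ (1 - 2 * δ) / 8 * 1 := by ring
    rw [e1]
    nlinarith
  obtain ⟨X, hX⟩ := eventually_atTop.1 hlogs
  refine ⟨δ, hδ0, max X 4, fun x hx => ?_⟩
  have hx4 : 4 ≤ x := le_trans (le_max_right _ _) hx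
  have hxX := hX x (le_trans (le_max_left _ _) hx)
  have hx0 : 0 < x := by linarith
  have hlx : 0 < Real.log x := Real.log_pos (by linarith)
  have hyy : 1 ≤ x ^ η := Real.one_le_rpow (by linarith) hη0.le
  have hL := hlaw x (x ^ η) (x ^ 2) (by linarith) hyy (by nlinarith)
  have hsub : {n : ℕ | 1 ≤ n ∧ (n : ℝ) ≤ x ∧ n ∈ R ∧ ¬ Fast c n} ⊆
      (Set.Iic ⌊x ^ (1 / 2 : ℝ)⌋₊) ∪
      {n : ℕ | 1 ≤ n ∧ (n : ℝ) ≤ x ∧ ¬ Pool.Agent.H828R3.Exc.Pr ε (x ^ η) (x ^ 2) n} := by
    rintro n ⟨h1, h2, h3, h4⟩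
    by_cases h5 : (n : ℝ) ≤ x ^ (1 / 2 : ℝ)
    · left
      exact Nat.le_floor h5
    · right
      refine ⟨h1, h2, fun h6 => h4 ?_⟩
      rw [not_le] at h5
      obtain ⟨m, hm1, hm2⟩ := h6
      have hTT : Pool.Agent.Helper894.Collatz.T = fT := rfl
      rw [hTT] at hm1 hm2
      have hn0 : (0 : ℝ) < n := by exact_mod_cast h1
      have hlogn : 1 / 2 * Real.log x ≤ Real.log n := by
        rw [← Real.log_rpow hx0]
        exact Real.log_le_log (Real.rpow_pos_of_pos hx0 _) h5.le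
      have hpos : 1 ≤ fT^[m] n := fT_iter_pos h1 m
      have hposR : (0 : ℝ) < (fT^[m] n : ℕ) := by exact_mod_cast hpos
      have hmR : fT^[m] n ∈ R := (hR.iter h1 m).1 h3
      -- time of the descent
      have htime : (m : ℝ) ≤ (1 + ε) * μ * Real.log n := by
        have h7 := (abs_le.1 (hm2 m le_rfl).1).2
        have hmu : Pool.Agent.H319R2.Lln.mu = l / 2 := rfl
        rw [hmu] at h7
        have h8 : 0 ≤ Real.log (fT^[m] n : ℕ) := Real.log_natCast_nonneg _
        have h9 : l / 2 * m ≤ (1 + ε) * Real.log n := by linarith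
        have h10 : (m : ℝ) = μ * (l / 2 * m) := by
          have : μ * (l / 2 * m) = μ * l / 2 * m := by ring
          rw [this, hμl]
          ring
        rw [h10]
        calc μ * (l / 2 * m) ≤ μ * ((1 + ε) * Real.log n) :=
              mul_le_mul_of_nonneg_left h9 (by linarith)
          _ = (1 + ε) * μ * Real.log n := by ring
      have hfin : ∃ k : ℕ, (k : ℝ) ≤ D * (η * Real.log x) ∧ fT^[k] (fT^[m] n) = 1 := by
        rcases Nat.lt_or_ge (fT^[m] n) 2 with h7 | h7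
        · refine ⟨0, ?_, ?_⟩
          · push_cast
            positivity
          · rw [Function.iterate_zero_apply]
            omega
        · obtain ⟨k, hk1, hk2⟩ := hC _ h7 hmR
          refine ⟨k, hk1.trans ?_, hk2⟩
          have h8 : Real.log (fT^[m] n : ℕ) ≤ η * Real.log x := by
            rw [← Real.log_rpow hx0]
            exact Real.log_le_log hposR hm1
          calc C * Real.log (fT^[m] n : ℕ) ≤ D * Real.log (fT^[m] n : ℕ) :=
                mul_le_mul_of_nonneg_right (le_max_left _ _) (Real.log_natCast_nonneg _)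
            _ ≤ D * (η * Real.log x) := mul_le_mul_of_nonneg_left h8 (by linarith)
      obtain ⟨k, hk1, hk2⟩ := hfin
      refine ⟨k + m, ?_, by rw [Function.iterate_add_apply, hk2]⟩
      push_cast
      have h11 : D * (η * Real.log x) ≤ (c - μ) / 4 * Real.log n := by
        calc D * (η * Real.log x) = (D * η) * Real.log x := by ring
          _ ≤ (c - μ) / 8 * Real.log x := mul_le_mul_of_nonneg_right hηD hlx.le
          _ = (c - μ) / 4 * (1 / 2 * Real.log x) := by ring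
          _ ≤ (c - μ) / 4 * Real.log n := mul_le_mul_of_nonneg_left hlogn (by linarith)
      have h12 : (1 + ε) * μ * Real.log n = μ * Real.log n + (c - μ) / 4 * Real.log n := by
        rw [← hεμ]
        ring
      have h13 : 0 ≤ (c - μ) * Real.log n := by
        apply mul_nonneg (by linarith)
        linarith
      linarith
  have hfin2 : {n : ℕ | 1 ≤ n ∧ (n : ℝ) ≤ x ∧ ¬ Pool.Agent.H828R3.Exc.Pr ε (x ^ η) (x ^ 2) n}.Finite := by
    apply (Set.finite_Icc 1 ⌊x⌋₊).subset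
    rintro n ⟨h1, h2, _⟩
    exact ⟨h1, Nat.le_floor h2⟩
  have hcount := (Set.ncard_le_ncard hsub ((Set.finite_Iic _).union hfin2)).trans
    (Set.ncard_union_le _ _)
  have hcount' : (({n : ℕ | 1 ≤ n ∧ (n : ℝ) ≤ x ∧ n ∈ R ∧ ¬ Fast c n}).ncard : ℝ) ≤
      ((Set.Iic ⌊x ^ (1 / 2 : ℝ)⌋₊).ncard : ℝ) +
      ({n : ℕ | 1 ≤ n ∧ (n : ℝ) ≤ x ∧ ¬ Pool.Agent.H828R3.Exc.Pr ε (x ^ η) (x ^ 2) n}.ncard : ℝ) := by
    exact_mod_cast hcount
  have hI : ((Set.Iic ⌊x ^ (1 / 2 : ℝ)⌋₊).ncard : ℝ) ≤ x ^ (1 / 2 : ℝ) + 1 := by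
    rw [← Finset.coe_Iic, Set.ncard_coe_finset, Nat.card_Iic]
    push_cast
    have := Nat.floor_le (Real.rpow_nonneg hx0.le (1 / 2 : ℝ))
    linarith
  have hyc : x / (x ^ η) ^ c1 ≤ x ^ (1 - 4 * δ) := by
    rw [← Real.rpow_mul hx0.le]
    nth_rewrite 1 [← Real.rpow_one x]
    rw [← Real.rpow_sub hx0]
    apply Real.rpow_le_rpow_of_exponent_le (by linarith)
    nlinarith
  have h1x : x ^ 2 / x ^ 2 ≤ x ^ (1 - 4 * δ) := by
    rw [div_self (by positivity)]
    exact Real.one_le_rpow (by linarith) (by linarith)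
  have hlast : C1 * (Real.log x) ^ 4 * (x / (x ^ η) ^ c1 + x ^ 2 / x ^ 2) ≤
      2 * (C1 * (Real.log x) ^ 4 * x ^ (1 - 4 * δ)) := by
    have h0 : 0 ≤ C1 * (Real.log x) ^ 4 := by positivity
    calc C1 * (Real.log x) ^ 4 * (x / (x ^ η) ^ c1 + x ^ 2 / x ^ 2)
        ≤ C1 * (Real.log x) ^ 4 * (x ^ (1 - 4 * δ) + x ^ (1 - 4 * δ)) :=
          mul_le_mul_of_nonneg_left (by linarith) h0
      _ = _ := by ring
  linarith

end Pool.Agent.W33.Coll
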