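import Pool.Agent.H395R2.G3.Count

/-! The backward trees of all the integers prime to `3`, uniformly: many nodes of about the expected
size. -/

set_option autoImplicit false

namespace Pool.Agent.W33.Coll

open Finset Pool.Agent.H395R2.G3 Pool.Agent.H412R2 Pool.Agent.H422R2.QA

theorem tr_root {E : ℕ} (n : ℕ) : ∀ (s m : ℕ) (z : ℤ), 1 ≤ m → z ∈ tr 3 E n s (m : ℤ) →
    ∃ y : ℕ, z = (y : ℤ) ∧ 1 ≤ y ∧ fT^[s] y = m ∧ 3 ^ n * y ≤ 2 ^ s * m := by
  induction n with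
  | zero =>
    intro s m z hm hz
    rw [mem_tr_zero] at hz
    obtain ⟨rfl, rfl⟩ := hz
    exact ⟨m, rfl, hm, rfl, by simp⟩
  | succ n ih =>
    intro s m z hm hz
    obtain ⟨e, b, he1, _, he3, hb, hz'⟩ := (mem_tr_succ (by norm_num)).1 hz
    push_cast at hb
    have hb1 : 1 ≤ b := by
      obtain ⟨e', rfl⟩ : ∃ e', e = e' + 1 := ⟨e - 1, by omega⟩
      have h1 : (2 : ℤ) ^ (e' + 1) * m = 2 * (2 ^ e' * m) := by ring
      have hpos : (1 : ℤ) ≤ 2 ^ e' * (m : ℤ) := by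
        have h3 : (1 : ℤ) ≤ 2 ^ e' := one_le_pow₀ (by norm_num)
        have h4 : (1 : ℤ) ≤ (m : ℤ) := by exact_mod_cast hm
        nlinarith
      rw [h1] at hb
      omega
    obtain ⟨b', rfl⟩ : ∃ b' : ℕ, b = (b' : ℤ) := ⟨b.toNat, by omega⟩
    have hbn : 3 * b' + 1 = 2 ^ e * m := by exact_mod_cast hb
    have hb1' : 1 ≤ b' := by exact_mod_cast hb1
    obtain ⟨y, hy, hy1, hy2, hy3⟩ := ih (s - e) b' z hb1' hz'
    refine ⟨y, hy, hy1, ?_, ?_⟩
    · rw [show s = e + (s - e) by omega, Function.iterate_add_apply, hy2]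
      exact fT_letter he1 hbn
    · calc 3 ^ (n + 1) * y = 3 * (3 ^ n * y) := by ring
        _ ≤ 3 * (2 ^ (s - e) * b') := Nat.mul_le_mul_left _ hy3
        _ = 2 ^ (s - e) * (3 * b') := by ring
        _ ≤ 2 ^ (s - e) * (2 ^ e * m) := Nat.mul_le_mul_left _ (by omega)
        _ = 2 ^ s * m := by
            rw [← mul_assoc, ← pow_add]
            congr 2
            omega

theorem FF_half : Pool.Agent.H395R2.G3.FF (1 / 2) / (1 / 2) = Real.log (4 / 3) := by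
  unfold Pool.Agent.H395R2.G3.FF
  rw [show (1 / 2 : ℝ) = 2⁻¹ by norm_num, Real.binEntropy_two_inv,
    Real.log_div (by norm_num) (by norm_num), show (4 : ℝ) = 2 ^ 2 by norm_num, Real.log_pow]
  push_cast
  ring

/-- uniform growth of the backward trees, at the critical tilt for sizes -/
theorem nodes {η : ℝ} (hη : 0 < η) : ∃ N₀ : ℕ, ∀ N : ℕ, N₀ ≤ N → ∀ m : ℕ, 1 ≤ m → ¬ 3 ∣ m →
    ∃ (s : ℕ) (F : Finset ℕ), |(s : ℝ) - 2 * N| ≤ η * N ∧
      Real.exp ((Real.log (4 / 3) - η) * N) ≤ (F.card : ℝ) ∧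
      ∀ y ∈ F, 1 ≤ y ∧ ¬ 3 ∣ y ∧ fT^[s] y = m ∧ 3 ^ N * y ≤ 2 ^ s * m := by
  have hlog : 0 < Real.log (4 / 3) := Real.log_pos (by norm_num)
  obtain ⟨E, hE, ha, hG⟩ := exists_cap (r := 1 / 2) (by norm_num) (by norm_num)
    (δ := min (η / 2) (Real.log (4 / 3) / 2)) (lt_min (by positivity) (by positivity))
  rw [FF_half] at hG
  have ha' := ha.trans (min_le_left _ _)
  have hG' := hG.trans (min_le_left _ _)
  have hG'' := hG.trans (min_le_right _ _)
  have hGpos : 0 < Gz 3 (1 - 1 / 2) E := by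
    have := (abs_le.1 hG'').1
    linarith
  have hPr := main (q := 3) Nat.prime_three (by norm_num) prim_three (E := E) (m := 3) (C := 16)
    (by omega) (conn_three hE) (z := 1 - 1 / 2) (by norm_num) hGpos
  obtain ⟨n₀, hn₀⟩ := hPr (η / 2) (by positivity)
  refine ⟨n₀, fun N hN m hm hm3 => ?_⟩
  have hN' : (0 : ℝ) ≤ N := Nat.cast_nonneg _
  obtain ⟨s, hs1, hs2⟩ := hn₀ N hN (m : ℤ) (by omega)
  rw [Nq_eq Nat.prime_three (by norm_num)] at hs2
  refine ⟨s, ((tr 3 E N s (m : ℤ)).filter (fun z => ¬ ((3 : ℕ) : ℤ) ∣ z)).image Int.toNat, ?_, ?_, ?_⟩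
  · have h2 : (s : ℝ) - 2 * N = (s - az (1 - 1 / 2) E * N) + (az (1 - 1 / 2) E - 1 / (1 / 2)) * N := by
      ring
    rw [h2]
    calc |(s - az (1 - 1 / 2) E * N) + (az (1 - 1 / 2) E - 1 / (1 / 2)) * N|
        ≤ |s - az (1 - 1 / 2) E * N| + |(az (1 - 1 / 2) E - 1 / (1 / 2)) * N| := abs_add_le _ _
      _ ≤ η / 2 * N + η / 2 * N := by
          apply add_le_add hs1
          rw [abs_mul, abs_of_nonneg hN']
          exact mul_le_mul_of_nonneg_right ha' hN'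
      _ = η * N := by ring
  · have hinj : Set.InjOn Int.toNat
        ((tr 3 E N s (m : ℤ)).filter (fun z => ¬ ((3 : ℕ) : ℤ) ∣ z) : Set ℤ) := by
      intro z hz z' hz' h
      rw [Finset.mem_coe, mem_filter] at hz hz'
      obtain ⟨y, rfl, _⟩ := tr_root N s m z hm hz.1
      obtain ⟨y', rfl, _⟩ := tr_root N s m z' hm hz'.1
      simpa using h
    rw [Finset.card_image_of_injOn hinj]
    refine le_trans (Real.exp_le_exp.2 ?_) hs2
    have := (abs_le.1 hG').1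
    apply mul_le_mul_of_nonneg_right _ hN'
    linarith
  · intro y hy
    rw [mem_image] at hy
    obtain ⟨z, hz, rfl⟩ := hy
    rw [mem_filter] at hz
    obtain ⟨y, rfl, hy1, hy2, hy3⟩ := tr_root N s m z hm hz.1
    rw [Int.toNat_natCast]
    refine ⟨hy1, ?_, hy2, hy3⟩
    intro h
    apply hz.2
    exact_mod_cast h

end Pool.Agent.W33.Coll
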