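import Pool.Agent.W33.Coll.Run
import Pool.Agent.W33.Coll.Tree

/-! Many runs of `H` consecutive integers, not too large, which all reach a given `m` slowly. -/

set_option autoImplicit false

namespace Pool.Agent.W33.Coll

open Finset Pool.Agent.H395R2.G3

theorem pow_struct (i : ℕ) : ∃ u : ℤ, ¬ (3 : ℤ) ∣ u ∧ (2 : ℤ) ^ (2 * 3 ^ i) = 1 + 3 ^ (i + 1) * u := by
  induction i with
  | zero => exact ⟨1, by norm_num, by norm_num⟩
  | succ i ih =>
    obtain ⟨u, hu, h⟩ := ih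
    refine ⟨u + 3 ^ (i + 1) * u ^ 2 + 3 ^ (2 * i + 1) * u ^ 3, ?_, ?_⟩
    · intro hd
      apply hu
      have h1 : (3 : ℤ) ∣ 3 ^ (i + 1) * u ^ 2 := Dvd.dvd.mul_right (dvd_pow_self 3 (by omega)) _
      have h2 : (3 : ℤ) ∣ 3 ^ (2 * i + 1) * u ^ 3 := Dvd.dvd.mul_right (dvd_pow_self 3 (by omega)) _
      have h3 := Int.dvd_sub (Int.dvd_sub hd h2) h1
      have e : u + 3 ^ (i + 1) * u ^ 2 + 3 ^ (2 * i + 1) * u ^ 3 - 3 ^ (2 * i + 1) * u ^ 3 -
          3 ^ (i + 1) * u ^ 2 = u := by ring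
      rwa [e] at h3
    · have e : (2 : ℤ) ^ (2 * 3 ^ (i + 1)) = (2 ^ (2 * 3 ^ i)) ^ 3 := by
        rw [← pow_mul]
        congr 1
        rw [pow_succ]
        ring
      rw [e, h]
      ring

/-- powers of two hit every class prime to `3` -/
theorem hit_aux (o : ℕ) : ∀ x y : ℤ, ¬ (3 : ℤ) ∣ x → ¬ (3 : ℤ) ∣ y →
    ∃ a : ℕ, (3 : ℤ) ^ (o + 1) ∣ 2 ^ a * x - y := by
  induction o with
  | zero =>
    intro x y hx hy
    by_cases h : (3 : ℤ) ∣ x - y
    · exact ⟨0, by simpa using h⟩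
    · refine ⟨1, ?_⟩
      rw [zero_add, pow_one, pow_one]
      have h1 : x % 3 = 1 ∨ x % 3 = 2 := by omega
      have h2 : y % 3 = 1 ∨ y % 3 = 2 := by omega
      rcases h1 with h1 | h1 <;> rcases h2 with h2 | h2 <;> omega
  | succ o ih =>
    intro x y hx hy
    obtain ⟨a, ha⟩ := ih x y hx hy
    obtain ⟨v, hv⟩ := ha
    obtain ⟨u, hu, hp⟩ := pow_struct o
    -- choose `k` with `3 ∣ v + k u 2^a x`
    have h2a : ¬ (3 : ℤ) ∣ 2 ^ a * x := by
      intro hd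
      rcases Int.prime_three.dvd_or_dvd hd with h | h
      · have := Int.prime_three.dvd_of_dvd_pow h
        norm_num at this
      · exact hx h
    have hw : ¬ (3 : ℤ) ∣ u * (2 ^ a * x) := by
      intro hd
      rcases Int.prime_three.dvd_or_dvd hd with h | h
      · exact hu h
      · exact h2a h
    set w := u * (2 ^ a * x) with hwdef
    obtain ⟨k, hk⟩ : ∃ k : ℕ, (3 : ℤ) ∣ v + k * w := by
      have h0 : v % 3 = 0 ∨ v % 3 = 1 ∨ v % 3 = 2 := by omega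
      have h1 : w % 3 = 1 ∨ w % 3 = 2 := by omega
      rcases h0 with h0 | h0 | h0
      · exact ⟨0, by push_cast; omega⟩
      · rcases h1 with h1 | h1
        · exact ⟨2, by push_cast; omega⟩
        · exact ⟨1, by push_cast; omega⟩
      · rcases h1 with h1 | h1
        · exact ⟨1, by push_cast; omega⟩
        · exact ⟨2, by push_cast; omega⟩
    refine ⟨a + 2 * 3 ^ o * k, ?_⟩
    have hpk : ∀ k : ℕ, ∃ z : ℤ, ((2 : ℤ) ^ (2 * 3 ^ o)) ^ k = 1 + k * (3 ^ (o + 1) * u) + 3 ^ (o + 2) * z := by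
      intro k
      induction k with
      | zero => exact ⟨0, by simp⟩
      | succ k ihk =>
        obtain ⟨z, hz⟩ := ihk
        refine ⟨z + 3 ^ (o + 1) * u * z + k * (3 ^ o * u ^ 2), ?_⟩
        rw [pow_succ, hz, hp]
        push_cast
        ring
    obtain ⟨z, hz⟩ := hpk k
    obtain ⟨q, hq⟩ := hk
    rw [pow_add 2 a, pow_mul, hz]
    have e : 2 ^ a * (1 + (k : ℤ) * (3 ^ (o + 1) * u) + 3 ^ (o + 2) * z) * x - y =
        (2 ^ a * x - y) + 3 ^ (o + 1) * (k * w) + 3 ^ (o + 2) * (2 ^ a * z * x) := by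
      rw [hwdef]
      ring
    rw [e, hv]
    refine ⟨q + 2 ^ a * z * x, ?_⟩
    have e2 : (3 : ℤ) ^ (o + 1) * v + 3 ^ (o + 1) * (k * w) = 3 ^ (o + 1) * (v + k * w) := by ring
    rw [e2, hq]
    ring

theorem hit (o : ℕ) (x b B : ℕ) (hx : ¬ 3 ∣ x) (hb : ¬ 3 ∣ b) :
    ∃ a : ℕ, B ≤ a ∧ ((3 ^ o : ℕ) : ℤ) ∣ 2 ^ a * x - b := by
  have h2 : ¬ (3 : ℤ) ∣ 2 ^ B * x := by
    intro hd
    rcases Int.prime_three.dvd_or_dvd hd with h | h
    · have := Int.prime_three.dvd_of_dvd_pow h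
      norm_num at this
    · exact hx (by exact_mod_cast h)
  obtain ⟨a, ha⟩ := hit_aux o (2 ^ B * x) b h2 (by exact_mod_cast hb)
  refine ⟨B + a, by omega, ?_⟩
  have e : (2 : ℤ) ^ (B + a) * x - b = 2 ^ a * (2 ^ B * x) - b := by rw [pow_add]; ring
  rw [e]
  refine dvd_trans ?_ ha
  push_cast
  exact pow_dvd_pow 3 (by omega)

/-- THE KEY LEMMA -/
theorem key_aux {H : ℕ} (hH : 1 ≤ H) {η : ℝ} (hη : 0 < η) : ∃ (K : ℝ) (N₀ : ℕ), 1 ≤ K ∧ ∀ N : ℕ, N₀ ≤ N →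
    ∀ m : ℕ, 1 ≤ m → ¬ 3 ∣ m → ∃ G : Finset ℕ,
      Real.exp ((Real.log (4 / 3) - η) * N) / K ≤ (G.card : ℝ) ∧
      ∀ n ∈ G, 1 ≤ n ∧ (n : ℝ) ≤ K * m * Real.exp ((Real.log (4 / 3) + η) * N) ∧
        (∃ s : ℕ, fT^[s] n = m) ∧
        ∀ h < H, ((n + h : ℕ) : ℝ) ≤ K * m * Real.exp ((Real.log (4 / 3) + η) * N) ∧
          ∃ s : ℕ, (2 - η) * N ≤ (s : ℝ) ∧ fT^[s] (n + h) = m := by
  classical
  obtain ⟨j, o, r, b, hr, hb3, hb1, hrun⟩ := run H
  obtain ⟨N₀, hnodes⟩ := nodes hη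
  have hchoice : ∀ ρ : ℕ, ∃ a : ℕ, b ≤ a ∧ (¬ 3 ∣ ρ → ((3 ^ o : ℕ) : ℤ) ∣ 2 ^ a * ρ - b) := by
    intro ρ
    by_cases h : 3 ∣ ρ
    · exact ⟨b, le_rfl, fun h' => absurd h h'⟩
    · obtain ⟨a, h1, h2⟩ := hit o ρ b b h hb3
      exact ⟨a, h1, fun _ => h2⟩
  choose A hA1 hA2 using hchoice
  obtain ⟨S, hS⟩ : ∃ S : ℕ, ∀ ρ < 3 ^ o, A ρ ≤ S :=
    ⟨(range (3 ^ o)).sup A, fun ρ hρ => le_sup (f := A) (mem_range.2 hρ)⟩
  set K : ℝ := 2 ^ (j + S) + r + H + 3 ^ o with hK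
  have h3o : (1 : ℝ) ≤ 3 ^ o := one_le_pow₀ (by norm_num)
  have hK1 : 1 ≤ K := by
    have h0 : (0 : ℝ) ≤ 2 ^ (j + S) := by positivity
    have h1 : (0 : ℝ) ≤ r := Nat.cast_nonneg _
    have h2 : (0 : ℝ) ≤ H := Nat.cast_nonneg _
    rw [hK]
    linarith
  refine ⟨K, N₀, hK1, fun N hN m hm hm3 => ?_⟩
  obtain ⟨s, F, hs, hF, hFm⟩ := hnodes N hN m hm hm3
  -- a popular class
  have hpop : ∃ ρ ∈ range (3 ^ o), (F.card : ℝ) / 3 ^ o ≤ (#{y ∈ F | y % 3 ^ o = ρ} : ℝ) := by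
    apply exists_le_card_fiber_of_nsmul_le_card_of_maps_to (f := fun y => y % 3 ^ o)
    · intro y _
      rw [mem_range]
      exact Nat.mod_lt _ (by positivity)
    · exact ⟨0, by rw [mem_range]; positivity⟩
    · rw [card_range, nsmul_eq_mul]
      push_cast
      rw [mul_div_cancel₀ _ (by positivity)]
  obtain ⟨ρ, hρ, hcard⟩ := hpop
  rw [mem_range] at hρ
  set a := A ρ with ha
  set Fρ : Finset ℕ := {y ∈ F | y % 3 ^ o = ρ} with hFρ
  have hdiv : ∀ y ∈ Fρ, ∃ t : ℕ, 3 ^ o * t + b = 2 ^ a * y := by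
    intro y hy
    rw [hFρ, mem_filter] at hy
    obtain ⟨hy1, hy3, _, _⟩ := hFm y hy.1
    have h3ρ : o = 0 ∨ ¬ 3 ∣ ρ := by
      rcases Nat.eq_zero_or_pos o with h | h
      · exact Or.inl h
      · right
        intro hd
        apply hy3
        have h1 : (3 : ℕ) ∣ 3 ^ o := dvd_pow_self 3 (by omega)
        rw [← hy.2] at hd
        exact (Nat.dvd_mod_iff h1).1 hd
    have hge : b ≤ 2 ^ a * y := by
      calc b ≤ a := hA1 ρ
        _ ≤ 2 ^ a := Nat.lt_two_pow_self.le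
        _ ≤ 2 ^ a * y := Nat.le_mul_of_pos_right _ hy1
    have hdvd : (3 ^ o : ℕ) ∣ 2 ^ a * y - b := by
      rcases h3ρ with h | h
      · rw [h, pow_zero]
        exact one_dvd _
      · have h1 := hA2 ρ h
        rw [← ha] at h1
        have h2 : ((3 ^ o : ℕ) : ℤ) ∣ ((2 ^ a * y - b : ℕ) : ℤ) := by
          rw [Nat.cast_sub hge]
          push_cast
          have h3 : ((3 ^ o : ℕ) : ℤ) ∣ (y : ℤ) - ρ := by
            have h4 := Nat.div_add_mod y (3 ^ o)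
            rw [hy.2] at h4
            refine ⟨(y / 3 ^ o : ℕ), ?_⟩
            have : (y : ℤ) = ((3 ^ o : ℕ) : ℤ) * ((y / 3 ^ o : ℕ) : ℤ) + ρ := by
              exact_mod_cast h4.symm
            linarith
          have h5 := dvd_add (Dvd.dvd.mul_left h3 (2 ^ a)) h1
          have e : (2 : ℤ) ^ a * (y - ρ) + (2 ^ a * ρ - b) = 2 ^ a * y - b := by ring
          rw [e] at h5
          exact_mod_cast h5
        exact_mod_cast h2
    obtain ⟨t, ht⟩ := hdvd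
    exact ⟨t, by omega⟩
  set f : ℕ → ℕ := fun y => 2 ^ j * ((2 ^ a * y - b) / 3 ^ o) + r with hf
  have hft : ∀ y ∈ Fρ, ∃ t, f y = 2 ^ j * t + r ∧ 3 ^ o * t + b = 2 ^ a * y := by
    intro y hy
    obtain ⟨t, ht⟩ := hdiv y hy
    refine ⟨t, ?_, ht⟩
    rw [hf]
    change 2 ^ j * ((2 ^ a * y - b) / 3 ^ o) + r = _
    rw [← ht, Nat.add_sub_cancel, Nat.mul_div_cancel_left _ (by positivity)]
  have hinj : Set.InjOn f (Fρ : Set ℕ) := by
    intro y hy y' hy' h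
    obtain ⟨t, ht1, ht2⟩ := hft y hy
    obtain ⟨t', ht1', ht2'⟩ := hft y' hy'
    rw [ht1, ht1'] at h
    have h1 : t = t' := by
      have h2 : 2 ^ j * t = 2 ^ j * t' := by omega
      exact Nat.eq_of_mul_eq_mul_left (by positivity) h2
    rw [← h1, ht2] at ht2'
    exact Nat.eq_of_mul_eq_mul_left (by positivity) ht2'
  have hexp : (2 : ℝ) ^ s / 3 ^ N ≤ Real.exp ((Real.log (4 / 3) + η) * N) := by
    have hl2 : Real.log 2 ≤ 1 := by
      have := Real.log_two_lt_d9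
      linarith
    have hl20 : 0 < Real.log 2 := Real.log_pos (by norm_num)
    have h1 : (2 : ℝ) ^ s / 3 ^ N = Real.exp (s * Real.log 2 - N * Real.log 3) := by
      rw [Real.exp_sub, ← Real.log_pow, ← Real.log_pow, Real.exp_log (by positivity),
        Real.exp_log (by positivity)]
    rw [h1]
    apply Real.exp_le_exp.2
    have h2 : Real.log (4 / 3) = 2 * Real.log 2 - Real.log 3 := by
      rw [Real.log_div (by norm_num) (by norm_num), show (4 : ℝ) = 2 ^ 2 by norm_num, Real.log_pow]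
      norm_num
    have h3 := (abs_le.1 hs).2
    have hN' : (0 : ℝ) ≤ N := Nat.cast_nonneg _
    have h4 : (s : ℝ) * Real.log 2 ≤ (2 * N + η * N) * Real.log 2 :=
      mul_le_mul_of_nonneg_right (by linarith) hl20.le
    have h5 : η * N * Real.log 2 ≤ η * N * 1 := mul_le_mul_of_nonneg_left hl2 (by positivity)
    rw [h2]
    nlinarith
  have hbound : ∀ y ∈ Fρ, ((f y + H : ℕ) : ℝ) ≤ K * m * Real.exp ((Real.log (4 / 3) + η) * N) := by
    intro y hy
    obtain ⟨t, ht1, ht2⟩ := hft y hy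
    rw [hFρ, mem_filter] at hy
    obtain ⟨hy1, _, _, hy4⟩ := hFm y hy.1
    have hle : f y + H ≤ (2 ^ (j + S) + r + H) * y := by
      have h1 : t ≤ 2 ^ a * y := by
        have h2 : t ≤ 3 ^ o * t := Nat.le_mul_of_pos_left _ (by positivity)
        omega
      have h2 : 2 ^ a ≤ 2 ^ S := Nat.pow_le_pow_right (by norm_num) (hS ρ hρ)
      calc f y + H = 2 ^ j * t + r + H := by rw [ht1]
        _ ≤ 2 ^ j * (2 ^ a * y) + r * y + H * y := by
            have h3 : r ≤ r * y := Nat.le_mul_of_pos_right _ hy1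
            have h4 : H ≤ H * y := Nat.le_mul_of_pos_right _ hy1
            have h5 : 2 ^ j * t ≤ 2 ^ j * (2 ^ a * y) := Nat.mul_le_mul_left _ h1
            omega
        _ ≤ 2 ^ j * (2 ^ S * y) + r * y + H * y := by
            have h5 : 2 ^ j * (2 ^ a * y) ≤ 2 ^ j * (2 ^ S * y) :=
              Nat.mul_le_mul_left _ (Nat.mul_le_mul_right _ h2)
            omega
        _ = (2 ^ (j + S) + r + H) * y := by rw [pow_add]; ring
    have hle' : ((f y + H : ℕ) : ℝ) ≤ (2 ^ (j + S) + r + H) * y := by exact_mod_cast hle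
    have hy4' : (y : ℝ) ≤ m * (2 ^ s / 3 ^ N) := by
      have h1 : (3 : ℝ) ^ N * y ≤ 2 ^ s * m := by exact_mod_cast hy4
      rw [← mul_div_assoc, le_div_iff₀ (by positivity)]
      linarith
    have hm0 : (0 : ℝ) ≤ m := Nat.cast_nonneg _
    calc ((f y + H : ℕ) : ℝ) ≤ (2 ^ (j + S) + r + H) * y := hle'
      _ ≤ K * y := by
          apply mul_le_mul_of_nonneg_right _ (Nat.cast_nonneg _)
          rw [hK]
          linarith
      _ ≤ K * (m * (2 ^ s / 3 ^ N)) := mul_le_mul_of_nonneg_left hy4' (by linarith)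
      _ ≤ K * (m * Real.exp ((Real.log (4 / 3) + η) * N)) := by
          apply mul_le_mul_of_nonneg_left _ (by linarith)
          exact mul_le_mul_of_nonneg_left hexp hm0
      _ = K * m * Real.exp ((Real.log (4 / 3) + η) * N) := by ring
  refine ⟨Fρ.image f, ?_, ?_⟩
  · rw [card_image_of_injOn hinj]
    calc Real.exp ((Real.log (4 / 3) - η) * N) / K ≤ (F.card : ℝ) / K :=
          div_le_div_of_nonneg_right hF (by linarith)
      _ ≤ (F.card : ℝ) / 3 ^ o := by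
          apply div_le_div_of_nonneg_left (Nat.cast_nonneg _) (by positivity)
          have h0 : (0 : ℝ) ≤ 2 ^ (j + S) := by positivity
          have h1 : (0 : ℝ) ≤ r := Nat.cast_nonneg _
          have h2 : (0 : ℝ) ≤ H := Nat.cast_nonneg _
          rw [hK]
          linarith
      _ ≤ _ := hcard
  · intro n hn
    rw [mem_image] at hn
    obtain ⟨y, hy, rfl⟩ := hn
    obtain ⟨t, ht1, ht2⟩ := hft y hy
    have hy' := hy
    rw [hFρ, mem_filter] at hy'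
    obtain ⟨hy1, _, hy3, _⟩ := hFm y hy'.1
    have hbd := hbound y hy
    have hs' : fT^[s + (a + j)] (f y) = m := by
      have h0 := hrun 0 (by omega) t
      rw [add_zero] at h0
      rw [Function.iterate_add_apply, Function.iterate_add_apply, ht1, h0, ht2, fT_iter_pow, hy3]
    refine ⟨by omega, le_trans (by exact_mod_cast Nat.le_add_right _ _) hbd, ⟨_, hs'⟩,
      fun h hh => ⟨?_, ?_⟩⟩
    · exact le_trans (by exact_mod_cast Nat.add_le_add_left hh.le _) hbd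
    · refine ⟨s + (a + j), ?_, ?_⟩
      · have h1 := (abs_le.1 hs).1
        push_cast
        have h2 : (0 : ℝ) ≤ (a : ℝ) + j := by positivity
        linarith
      · rw [Function.iterate_add_apply, Function.iterate_add_apply, ht1, hrun h hh t, ht2,
          fT_iter_pow, hy3]

theorem key (H : ℕ) {η : ℝ} (hη : 0 < η) : ∃ (K : ℝ) (N₀ : ℕ), 1 ≤ K ∧ ∀ N : ℕ, N₀ ≤ N →
    ∀ m : ℕ, 1 ≤ m → ¬ 3 ∣ m → ∃ G : Finset ℕ,
      Real.exp ((Real.log (4 / 3) - η) * N) / K ≤ (G.card : ℝ) ∧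
      ∀ n ∈ G, 1 ≤ n ∧ (n : ℝ) ≤ K * m * Real.exp ((Real.log (4 / 3) + η) * N) ∧
        (∃ s : ℕ, fT^[s] n = m) ∧
        ∀ h < H, ((n + h : ℕ) : ℝ) ≤ K * m * Real.exp ((Real.log (4 / 3) + η) * N) ∧
          ∃ s : ℕ, (2 - η) * N ≤ (s : ℝ) ∧ fT^[s] (n + h) = m := by
  obtain ⟨K, N₀, hK, h⟩ := key_aux (H := H + 1) (by omega) hη
  refine ⟨K, N₀, hK, fun N hN m hm hm3 => ?_⟩
  obtain ⟨G, h1, h2⟩ := h N hN m hm hm3
  refine ⟨G, h1, fun n hn => ?_⟩
  obtain ⟨h3, h4, h5, h6⟩ := h2 n hn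
  exact ⟨h3, h4, h5, fun k hk => h6 k (by omega)⟩

end Pool.Agent.W33.Coll
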