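import Pool.Agent.H499R2.CO.F
import Pool.Agent.H395R2.G3.Tree8

/-! Runs of consecutive integers in a residue class modulo `2 ^ j` which coalesce after `j` steps of
the `3x+1` function. -/

set_option autoImplicit false

namespace Pool.Agent.W33.Coll

open Finset Pool.Agent.H395R2.G3 Pool.Agent.H499R2.CO

/-- number of odd terms among the first `K` iterates -/
def oc : ℕ → ℕ → ℕ
  | 0, _ => 0
  | K + 1, x => oc K (fT x) + x % 2

theorem fT_add (x s : ℕ) : fT (x + 2 * s) = fT x + 3 ^ (x % 2) * s := by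
  unfold fT
  rcases Nat.mod_two_eq_zero_or_one x with h | h
  · rw [if_pos (by omega), if_pos h, h]
    omega
  · rw [if_neg (by omega), if_neg (by omega), h]
    omega

theorem iter_add (K : ℕ) : ∀ x t : ℕ, fT^[K] (x + 2 ^ K * t) = fT^[K] x + 3 ^ (oc K x) * t := by
  induction K with
  | zero =>
    intro x t
    simp [oc]
  | succ K ih =>
    intro x t
    rw [Function.iterate_succ_apply, Function.iterate_succ_apply]
    have h1 : x + 2 ^ (K + 1) * t = x + 2 * (2 ^ K * t) := by ring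
    rw [h1, fT_add]
    have h2 : fT x + 3 ^ (x % 2) * (2 ^ K * t) = fT x + 2 ^ K * (3 ^ (x % 2) * t) := by ring
    rw [h2, ih, oc, pow_add]
    ring

theorem Tz_cast (n : ℕ) : Tz 1 (n : ℤ) = (fT n : ℤ) := by
  unfold Tz fT
  rcases Nat.mod_two_eq_zero_or_one n with h | h
  · rw [if_pos h, if_pos (by omega)]
    push_cast
    rfl
  · rw [if_neg (by omega), if_neg (by omega)]
    push_cast
    rfl

theorem Tz_iter_cast (k : ℕ) : ∀ n : ℕ, (Tz 1)^[k] (n : ℤ) = ((fT^[k] n : ℕ) : ℤ) := by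
  induction k with
  | zero => intro n; rfl
  | succ k ih =>
    intro n
    rw [Function.iterate_succ_apply, Function.iterate_succ_apply, Tz_cast, ih]

theorem persist {a b t k : ℕ} (h : fT^[t] a = fT^[t] b) (htk : t ≤ k) : fT^[k] a = fT^[k] b := by
  obtain ⟨d, rfl⟩ := Nat.exists_eq_add_of_le htk
  rw [add_comm, Function.iterate_add_apply, Function.iterate_add_apply, h]

open Classical in
/-- the integers `x` for which `x, ..., x + H - 1` do not all coalesce within `K` steps are rare -/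
theorem bad_count (H : ℕ) {ε : ℝ} (hε : 0 < ε) : ∃ K : ℕ, ∀ N : ℕ,
    (#{n ∈ Icc 1 N | ¬ ∀ h < H, fT^[K] (n + h) = fT^[K] n} : ℝ) ≤ H * (ε * (N + 2 ^ K + 1)) := by
  induction H with
  | zero =>
    refine ⟨0, fun N => ?_⟩
    simp
  | succ H ih =>
    obtain ⟨K1, h1⟩ := ih
    obtain ⟨K2, h2⟩ := coalT_count (d := 1) (by norm_num) (H : ℤ) hε
    refine ⟨max K1 K2, fun N => ?_⟩
    have hsub : ({n ∈ Icc 1 N | ¬ ∀ h < H + 1, fT^[max K1 K2] (n + h) = fT^[max K1 K2] n}) ⊆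
        ({n ∈ Icc 1 N | ¬ ∀ h < H, fT^[K1] (n + h) = fT^[K1] n}) ∪
        ({n ∈ Icc 1 N | ¬ ∃ t ≤ K2, (Tz 1)^[t] ((n : ℕ) : ℤ) = (Tz 1)^[t] ((n : ℤ) + 1 * H)}) := by
      intro n hn
      rw [mem_filter] at hn
      rw [mem_union, mem_filter, mem_filter]
      by_contra hcon
      rw [not_or, not_and_not_right, not_and_not_right] at hcon
      apply hn.2
      intro h hh
      rcases Nat.lt_succ_iff_lt_or_eq.1 hh with h3 | h3
      · exact persist (hcon.1 hn.1 h h3) (le_max_left _ _)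
      · obtain ⟨t, ht, ht2⟩ := hcon.2 hn.1
        rw [h3]
        have e1 : ((n : ℤ) + 1 * (H : ℤ)) = ((n + H : ℕ) : ℤ) := by push_cast; ring
        rw [e1, Tz_iter_cast, Tz_iter_cast] at ht2
        exact (persist (by exact_mod_cast ht2) (ht.trans (le_max_right _ _))).symm
    have hc := (card_le_card hsub).trans (card_union_le _ _)
    have hc' : (#{n ∈ Icc 1 N | ¬ ∀ h < H + 1, fT^[max K1 K2] (n + h) = fT^[max K1 K2] n} : ℝ) ≤
        #{n ∈ Icc 1 N | ¬ ∀ h < H, fT^[K1] (n + h) = fT^[K1] n} +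
        #{n ∈ Icc 1 N | ¬ ∃ t ≤ K2, (Tz 1)^[t] ((n : ℕ) : ℤ) = (Tz 1)^[t] ((n : ℤ) + 1 * H)} := by
      exact_mod_cast hc
    have p1 : (2 : ℝ) ^ K1 ≤ 2 ^ (max K1 K2) := pow_le_pow_right₀ (by norm_num) (le_max_left _ _)
    have p2 : (2 : ℝ) ^ K2 ≤ 2 ^ (max K1 K2) := pow_le_pow_right₀ (by norm_num) (le_max_right _ _)
    have h1' := h1 N
    have h2' := h2 N
    have q1 : (H : ℝ) * (ε * (N + 2 ^ K1 + 1)) ≤ H * (ε * (N + 2 ^ (max K1 K2) + 1)) := by
      gcongr
    have q2 : ε * ((N : ℝ) + 2 ^ K2 + 1) ≤ ε * (N + 2 ^ (max K1 K2) + 1) := by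
      gcongr
    push_cast
    linarith

/-- COALESCING RUNS IN A RESIDUE CLASS -/
theorem run (H : ℕ) : ∃ j o r b : ℕ, 1 ≤ r ∧ ¬ 3 ∣ b ∧ 1 ≤ b ∧
    ∀ h < H, ∀ t, fT^[j] (2 ^ j * t + r + h) = 3 ^ o * t + b := by
  classical
  obtain ⟨K, hK⟩ := bad_count H (ε := 1 / (4 * (H + 1))) (by positivity)
  -- choose `x` with the property at `x` and at `x + 2 ^ K`
  obtain ⟨M, hM⟩ : ∃ M : ℕ, 2 * 2 ^ K + 2 ≤ M := ⟨_, le_rfl⟩
  have hex : ∃ x, 1 ≤ x ∧ (∀ h < H, fT^[K] (x + h) = fT^[K] x) ∧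
      (∀ h < H, fT^[K] (x + 2 ^ K + h) = fT^[K] (x + 2 ^ K)) := by
    by_contra hcon
    push Not at hcon
    set B : Finset ℕ := {n ∈ Icc 1 (M + 2 ^ K) | ¬ ∀ h < H, fT^[K] (n + h) = fT^[K] n} with hB
    have hsub : Icc 1 M ⊆ B ∪ B.image (fun x => x - 2 ^ K) := by
      intro x hx
      rw [mem_Icc] at hx
      rw [mem_union, mem_image]
      by_cases h1 : ∀ h < H, fT^[K] (x + h) = fT^[K] x
      · right
        refine ⟨x + 2 ^ K, ?_, by omega⟩
        rw [hB, mem_filter, mem_Icc]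
        refine ⟨⟨by omega, by omega⟩, fun h2 => ?_⟩
        obtain ⟨h, hh, hh2⟩ := hcon x hx.1 h1
        exact hh2 (h2 h hh)
      · left
        rw [hB, mem_filter, mem_Icc]
        exact ⟨⟨hx.1, by omega⟩, h1⟩
    have hc : M ≤ 2 * B.card := by
      calc M = (Icc 1 M).card := by simp
        _ ≤ (B ∪ B.image (fun x => x - 2 ^ K)).card := card_le_card hsub
        _ ≤ B.card + (B.image (fun x => x - 2 ^ K)).card := card_union_le _ _
        _ ≤ B.card + B.card := by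
            have := card_image_le (s := B) (f := fun x => x - 2 ^ K)
            omega
        _ = 2 * B.card := by ring
    have hk := hK (M + 2 ^ K)
    rw [← hB] at hk
    have hc' : (M : ℝ) ≤ 2 * (B.card : ℝ) := by exact_mod_cast hc
    have hM' : (2 : ℝ) * 2 ^ K + 2 ≤ M := by exact_mod_cast hM
    have hH : (H : ℝ) * (1 / (4 * (H + 1)) * (((M + 2 ^ K : ℕ) : ℝ) + 2 ^ K + 1)) ≤
        1 / 4 * (((M + 2 ^ K : ℕ) : ℝ) + 2 ^ K + 1) := by
      rw [← mul_assoc]
      apply mul_le_mul_of_nonneg_right _ (by positivity)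
      rw [mul_one_div, div_le_div_iff₀ (by positivity) (by norm_num)]
      linarith
    push_cast at hk hH
    linarith
  obtain ⟨x, hx1, hx2, hx3⟩ := hex
  have hβ : 1 ≤ fT^[K] x := by
    have hpos : ∀ (k : ℕ) (y : ℕ), 1 ≤ y → 1 ≤ fT^[k] y := by
      intro k
      induction k with
      | zero => intro y hy; exact hy
      | succ k ih =>
        intro y hy
        rw [Function.iterate_succ_apply]
        apply ih
        unfold fT
        split_ifs <;> omega
    exact hpos K x hx1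
  set β := fT^[K] x with hβdef
  have hoc : ∀ h < H, 3 ^ (oc K (x + h)) = 3 ^ (oc K x) := by
    intro h hh
    have h1 := hx3 h hh
    have h2 := hx2 h hh
    have e1 : x + 2 ^ K + h = (x + h) + 2 ^ K * 1 := by ring
    have e2 : x + 2 ^ K = x + 2 ^ K * 1 := by ring
    rw [e1, e2, iter_add, iter_add, h2] at h1
    omega
  have hst : ∀ h < H, ∀ t, fT^[K] (2 ^ K * t + x + h) = 3 ^ (oc K x) * t + β := by
    intro h hh t
    have e1 : 2 ^ K * t + x + h = (x + h) + 2 ^ K * t := by ring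
    rw [e1, iter_add, hoc h hh, hx2 h hh]
    ring
  -- continue until the next odd step
  obtain ⟨e, u, hu, hβ2⟩ : ∃ e u, u % 2 = 1 ∧ β = 2 ^ e * u := by
    obtain ⟨e, u, hu, h2⟩ := Nat.exists_eq_two_pow_mul_odd (show β ≠ 0 by omega)
    exact ⟨e, u, Nat.odd_iff.1 hu, h2⟩
  have hlast : ∀ t, fT^[e + 1] (β + 2 ^ (e + 1) * t) = fT^[e + 1] β + 3 ^ (oc (e + 1) β) * t :=
    fun t => iter_add (e + 1) β t
  have hb : fT^[e + 1] β = (3 * u + 1) / 2 := by
    rw [add_comm, Function.iterate_add_apply, hβ2, fT_iter_pow, Function.iterate_one]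
    unfold fT
    rw [if_neg (by omega)]
  refine ⟨K + (e + 1), oc K x + oc (e + 1) β, x, (3 * u + 1) / 2, hx1, by omega, by omega, ?_⟩
  intro h hh t
  rw [add_comm K (e + 1), Function.iterate_add_apply]
  have e1 : 2 ^ (e + 1 + K) * t + x + h = 2 ^ K * (2 ^ (e + 1) * t) + x + h := by
    rw [pow_add]; ring
  rw [e1, hst h hh]
  have e2 : 3 ^ oc K x * (2 ^ (e + 1) * t) + β = β + 2 ^ (e + 1) * (3 ^ oc K x * t) := by ring
  rw [e2, hlast, hb, pow_add]
  ring

end Pool.Agent.W33.Coll
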